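import Pool.Agent.W966.Lengths

set_option autoImplicit false

/-!
# The DFT matrices are not Valiant-rigid over the cyclotomic fields

The family `D_N = (ω_N ^ (i j))` is not Valiant-rigid over the fields `ℚ(ω_N)`: for all positive
`ε` and `δ` there are infinitely many `N` such that `D_N` can be brought to rank at most `ε N` by
changing fewer than `N ^ (1 + δ)` entries, all new entries lying in `ℚ(ω_N)`.

Proof.  If `N` is the product of pairwise coprime numbers `n_1, …, n_k` then, up to permutations of
the rows and columns, `D_N` is the tensor product of `n_i × n_i` Vandermonde matrices over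
`ℚ(ω_N)`.  A Vandermonde matrix is the product of a lower and an upper triangular matrix.  A lower
triangular `n × n` matrix with `n ≤ 2 ^ l` is the product of a diagonal matrix and of `l` matrices
`F_j`, one for each binary digit of the indices, such that every nonzero entry of `F_j` outside the
diagonal is at a place `(a, c)` where the digit `j` of `a` is `1` and the one of `c` is `0`.  In the
tensor product of the matrices `F_j` a nonzero entry at `(x, y)` has Hamming distance
`w (x) - w (y)`, where `w` is the number of the coordinates with digit `1`.  By Chebyshev's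
inequality `w` is nearly constant, outside of a small set of rows and columns, and so the tensor
product is the sum of a matrix of small rank and of a matrix which is supported near the diagonal.
This works if `k` is at least a constant times `l ^ 3`; then take for the `n_i` primes between `2 ^ l`
and `4 ^ l`.
-/

namespace Pool.Agent.Results.MP_07046b_lc.DftNotRigid

open Pool.Agent.W966.Kron IntermediateField

/-- The rigidity `R_M(r)` of a matrix over the field `F`: the least number of entries of `M` that
must be changed, with the new entries taken from `F`, so that the resulting matrix has rank at most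
`r` over `F`. -/
noncomputable def rigidity {F : Type} [Field F] {N : ℕ} (M : Matrix (Fin N) (Fin N) F) (r : ℝ) :
    ℕ :=
  sInf {s : ℕ | ∃ M' : Matrix (Fin N) (Fin N) F, (M'.rank : ℝ) ≤ r ∧
    {q : Fin N × Fin N | M q.1 q.2 ≠ M' q.1 q.2}.ncard = s}

/-- The family of the `N × N` matrices `M N` over the fields `F N` is Valiant-rigid: there are
`ε, δ > 0` and `N₀` such that `R_{M N}(ε N) ≥ N ^ (1 + δ)` for all `N ≥ N₀`. -/
def ValiantRigid (F : ℕ → Type) [∀ N, Field (F N)] (M : ∀ N, Matrix (Fin N) (Fin N) (F N)) :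
    Prop :=
  ∃ ε δ : ℝ, 0 < ε ∧ 0 < δ ∧ ∃ N₀ : ℕ, ∀ N : ℕ, N₀ ≤ N →
    (N : ℝ) ^ (1 + δ) ≤ (rigidity (M N) (ε * N) : ℝ)

/-- The `N × N` matrix with the entries `ω ^ (i j)`, `0 ≤ i, j < N`, as a matrix over the subfield
`ℚ(ω)` of `ℂ`. -/
noncomputable def D (ω : ℂ) (N : ℕ) : Matrix (Fin N) (Fin N) ℚ⟮ω⟯ :=
  fun i j => AdjoinSimple.gen ℚ ω ^ ((i : ℕ) * (j : ℕ))

/-- The entries of `D ω N` are the powers of `ω`. -/
theorem coe_D (ω : ℂ) (N : ℕ) (i j : Fin N) : ((D ω N i j : ℚ⟮ω⟯) : ℂ) = ω ^ ((i : ℕ) * (j : ℕ)) := by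
  simp [D]

/-- **Theorem.** Let `ω N` be a primitive `N`-th root of unity for `N ≥ 1`.  The family of the DFT
matrices `D_N` is not Valiant-rigid over the cyclotomic fields `ℚ(ω N)`. -/
theorem result (ω : ℕ → ℂ) (hω : ∀ N : ℕ, 1 ≤ N → IsPrimitiveRoot (ω N) N) :
    ¬ ValiantRigid (fun N => ℚ⟮ω N⟯) (fun N => D (ω N) N) := by
  rintro ⟨ε, δ, hε, hδ, N₀, h⟩
  obtain ⟨N, hN, hF⟩ := exists_length ε δ hε hδ (N₀ + 1)
  have hN1 : 1 ≤ N := by omega
  have hw : IsPrimitiveRoot (AdjoinSimple.gen ℚ (ω N)) N := by
    rw [← IsPrimitiveRoot.coe_submonoidClass_iff]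
    simpa using hω N hN1
  obtain ⟨B, hB, hc⟩ := hF ℚ⟮ω N⟯ (AdjoinSimple.gen ℚ (ω N)) hw
  have h1 := h N (by omega)
  have h2 : rigidity (D (ω N) N) (ε * N) ≤ changes (dft (AdjoinSimple.gen ℚ (ω N)) N) B :=
    Nat.sInf_le ⟨B, hB, rfl⟩
  have h3 : (rigidity (D (ω N) N) (ε * N) : ℝ) ≤
      (changes (dft (AdjoinSimple.gen ℚ (ω N)) N) B : ℝ) := by exact_mod_cast h2
  linarith

end Pool.Agent.Results.MP_07046b_lc.DftNotRigid
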